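import Pool.Agent.SZT.StmtsB

/-! # SZT, block B, row ADD: the sum of the positions over a principal divisor is an integer. -/

noncomputable section

open Polynomial H58Q

namespace Pool.Agent.SZT.H47

open Pool.Agent.SZT.B

section pint

variable {L : Type} [NormedField L] [IsUltrametricDist L]

theorem nsub_le (a b : L) : ‖a - b‖ ≤ max ‖a‖ ‖b‖ := by
  rw [sub_eq_add_neg, ← norm_neg b]
  exact IsUltrametricDist.norm_add_le_max a (-b)

theorem pint_add {p q : L[X]} (hp : PInt p) (hq : PInt q) : PInt (p + q) := by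
  intro i
  rw [coeff_add]
  exact (IsUltrametricDist.norm_add_le_max _ _).trans (max_le (hp i) (hq i))

theorem pint_mul {p q : L[X]} (hp : PInt p) (hq : PInt q) : PInt (p * q) := by
  intro i
  rw [coeff_mul]
  refine IsUltrametricDist.norm_sum_le_of_forall_le_of_nonneg zero_le_one fun ij _ => ?_
  rw [norm_mul]
  exact mul_le_one₀ (hp _) (norm_nonneg _) (hq _)

omit [IsUltrametricDist L] in
theorem pint_one : PInt (1 : L[X]) := by
  intro i
  rw [coeff_one]
  split_ifs <;> simp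

theorem pint_pow {p : L[X]} (hp : PInt p) (n : ℕ) : PInt (p ^ n) := by
  induction n with
  | zero => rw [pow_zero]; exact pint_one
  | succ n ih => rw [pow_succ]; exact pint_mul ih hp

omit [IsUltrametricDist L] in
theorem pint_C {a : L} (ha : ‖a‖ ≤ 1) : PInt (C a) := by
  intro i
  rw [coeff_C]
  split_ifs
  · exact ha
  · simp

omit [IsUltrametricDist L] in
theorem pint_X : PInt (X : L[X]) := by
  intro i
  rw [coeff_X]
  split_ifs <;> simp

theorem pint_sum {ι : Type} (t : Finset ι) (g : ι → L[X]) (h : ∀ i ∈ t, PInt (g i)) :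
    PInt (∑ i ∈ t, g i) := by
  intro n
  rw [finsetSum_coeff]
  exact IsUltrametricDist.norm_sum_le_of_forall_le_of_nonneg zero_le_one fun i hi => h i hi n

theorem pint_comp {p : L[X]} {e : L} (hp : PInt p) (he : ‖e‖ ≤ 1) :
    PInt (p.comp (X + C e)) := by
  rw [comp, eval₂_eq_sum_range]
  exact pint_sum _ _ fun i _ =>
    pint_mul (pint_C (hp i)) (pint_pow (pint_add pint_X (pint_C he)) i)

end pint

/-- `α(x(X)) + β(x(X)) y(X)` is a bounded Laurent series. -/
theorem laurent (PMU : B.PmuStmt) (EXL : B.ExlStmt) {L : Type} [NormedField L]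
    [IsUltrametricDist L] [CompleteSpace L] (θ : Fin 5 → L) (s : ℕ → L) (h2 : ‖(2 : L)‖ = 1)
    (hη0 : eta θ ≠ 0) (hη1 : ‖eta θ‖ < 1) (hctr : ‖ctr θ‖ ≤ 1) (hs : ∀ k, ‖s k‖ ≤ 1)
    (hz : ∀ X : L, Ann ‖eta θ‖ X → ‖(X + eta θ / X) / 2‖ < 1) (α β : L[X]) (hα : PInt α)
    (hβ : PInt β) :
    ∃ c : ℤ → L, Bdd ‖eta θ‖ 1 c ∧ ∀ X : L, Ann ‖eta θ‖ X →
      val c X = α.eval (xx θ X) + β.eval (xx θ X) * yy θ s X := by
  obtain ⟨pm1, pm2, pm3⟩ := PMU L
  have hα' := pint_comp hα hctr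
  have hβ' := pint_comp hβ hctr
  obtain ⟨c, hc, hv⟩ := EXL L (eta θ) (fun k => (α.comp (X + C (ctr θ))).coeff k)
    (fun k => ∑ i ∈ Finset.range (k + 1), (β.comp (X + C (ctr θ))).coeff i * s (k - i))
    h2 hη0 hη1 hα' (by
      intro k
      refine IsUltrametricDist.norm_sum_le_of_forall_le_of_nonneg zero_le_one fun i _ => ?_
      rw [norm_mul]
      exact mul_le_one₀ (hβ' _) (norm_nonneg _) (hs _))
  refine ⟨c, hc, fun Y hY => ?_⟩
  rw [hv Y hY, pm3, pm2 _ s _ hβ' hs (hz Y hY), pm3, eval_comp, eval_comp, eval_add, eval_X,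
    eval_C]
  have hx : (Y + eta θ / Y) / 2 + ctr θ = xx θ Y := by
    rw [xx]
    ring
  rw [hx, yy]
  ring

section cnt

variable {L : Type} [NormedField L]

open scoped Classical in
/-- multiplicities of the points in the annulus -/
theorem count_nz (f : L[X]) (θ : Fin 5 → L) (s : ℕ → L) (A B : L[X])
    (ch1 : ∀ X : L, Ann ‖eta θ‖ X → crd θ s (xx θ X) (yy θ s X) = X ∧ ‖xx θ X - ctr θ‖ < 1)
    (ch2 : ∀ a y : L, y ^ 2 = f.eval a → ‖a - ctr θ‖ < 1 →
      xx θ (crd θ s a y) = a ∧ yy θ s (crd θ s a y) = y)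
    (hr : ∀ a ∈ A.roots, B.eval a ^ 2 = f.eval a) (x : L) (hx : Ann ‖eta θ‖ x) :
    (nz θ s A B).count x = if B.eval (xx θ x) = yy θ s x then A.roots.count (xx θ x) else 0 := by
  rw [nz, Multiset.count_map, Multiset.filter_filter]
  split_ifs with h
  · rw [Multiset.count_eq_card_filter_eq]
    congr 1
    refine Multiset.filter_congr fun a ha => ?_
    constructor
    · rintro ⟨h1, h2⟩
      rw [h1, (ch2 a _ (hr a ha) h2).1]
    · rintro rfl
      refine ⟨?_, (ch1 x hx).2⟩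
      rw [h, (ch1 x hx).1]
  · rw [Multiset.card_eq_zero, Multiset.filter_eq_nil]
    rintro a ha ⟨h1, h2⟩
    apply h
    rw [h1, (ch2 a _ (hr a ha) h2).1, (ch2 a _ (hr a ha) h2).2]

omit [NormedField L] in
theorem prod_filter (S : Multiset L) (p : L → Prop) [DecidablePred p] (u v w : L → ℝ)
    (h1 : ∀ a ∈ S, p a → u a = v a * w a) (h2 : ∀ a ∈ S, ¬ p a → u a = v a) :
    (S.map u).prod = (S.map v).prod * ((S.filter p).map w).prod := by
  induction S using Multiset.induction_on with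
  | empty => simp
  | cons a S ih =>
    have ih' := ih (fun b hb => h1 b (Multiset.mem_cons_of_mem hb))
      (fun b hb => h2 b (Multiset.mem_cons_of_mem hb))
    by_cases hp : p a
    · rw [Multiset.map_cons, Multiset.prod_cons, Multiset.map_cons, Multiset.prod_cons,
        Multiset.filter_cons_of_pos _ hp, Multiset.map_cons, Multiset.prod_cons, ih',
        h1 a (Multiset.mem_cons_self a S) hp]
      ring
    · rw [Multiset.map_cons, Multiset.prod_cons, Multiset.map_cons, Multiset.prod_cons,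
        Multiset.filter_cons_of_neg _ hp, ih', h2 a (Multiset.mem_cons_self a S) hp]
      ring

end cnt

/-- the product of the distances to the roots of `A` -/
theorem prod_nz {L : Type} [NormedField L] [IsUltrametricDist L] (f : L[X]) (θ : Fin 5 → L)
    (s : ℕ → L) (A B : L[X]) (h2 : ‖(2 : L)‖ = 1) (hctr : ‖ctr θ‖ ≤ 1)
    (ch1 : ∀ X : L, Ann ‖eta θ‖ X → ‖xx θ X - ctr θ‖ < 1)
    (ch2 : ∀ a y : L, y ^ 2 = f.eval a → ‖a - ctr θ‖ < 1 → Ann ‖eta θ‖ (crd θ s a y) ∧
      xx θ (crd θ s a y) = a)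
    (ch3 : ∀ X X' : L, X ≠ 0 → X' ≠ 0 →
      xx θ X - xx θ X' = (X - X') * (1 - eta θ / (X * X')) / 2)
    (hr : ∀ a ∈ A.roots, B.eval a ^ 2 = f.eval a) (Y : L) (hY : Ann ‖eta θ‖ Y) :
    (A.roots.map fun a => ‖xx θ Y - a‖).prod =
      (A.roots.map fun a => max 1 ‖a‖).prod *
        ((nz θ s A B).map fun x => ‖(Y - x) * (1 - eta θ / (Y * x))‖).prod := by
  classical
  rw [nz, Multiset.map_map]
  refine prod_filter _ _ _ _ _ ?_ ?_
  · intro a ha hp
    obtain ⟨hc, hx⟩ := ch2 a _ (hr a ha) hp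
    have hY0 : Y ≠ 0 := norm_pos_iff.mp ((norm_nonneg _).trans_lt hY.1)
    have hc0 : crd θ s a (B.eval a) ≠ 0 := norm_pos_iff.mp ((norm_nonneg _).trans_lt hc.1)
    have h3 := ch3 Y _ hY0 hc0
    rw [hx] at h3
    have ha1 : ‖a‖ ≤ 1 := by
      have : a = (a - ctr θ) + ctr θ := by ring
      rw [this]
      exact (IsUltrametricDist.norm_add_le_max _ _).trans (max_le hp.le hctr)
    rw [max_eq_left ha1, one_mul, h3, norm_div, h2, div_one]
    rfl
  · intro a ha hp
    push Not at hp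
    have hY1 := ch1 Y hY
    have e1 : ‖xx θ Y - a‖ = ‖a - ctr θ‖ := by
      have hne : ‖xx θ Y - ctr θ‖ ≠ ‖ctr θ - a‖ := by
        rw [norm_sub_rev (ctr θ) a]
        exact (hY1.trans_le hp).ne
      have := IsUltrametricDist.norm_add_eq_max_of_norm_ne_norm hne
      rw [sub_add_sub_cancel, norm_sub_rev (ctr θ) a, max_eq_right (hY1.le.trans hp)] at this
      exact this
    rw [e1]
    rcases le_or_gt ‖a‖ 1 with h | h
    · rw [max_eq_left h]
      exact le_antisymm ((nsub_le _ _).trans (max_le h hctr)) hp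
    · rw [max_eq_right h.le]
      have hne : ‖a‖ ≠ ‖-ctr θ‖ := by
        rw [norm_neg]
        exact (hctr.trans_lt h).ne'
      have := IsUltrametricDist.norm_add_eq_max_of_norm_ne_norm hne
      rw [← sub_eq_add_neg, norm_neg, max_eq_left (hctr.trans h.le)] at this
      exact this

/-- a growth statement only depends on the values in the annulus -/
theorem grow_congr {L : Type} [NormedField L] [IsUltrametricDist L] {r : ℝ} {F G : L → L}
    {g : L} (hg : g ≠ 0) {x : L} (hr : 0 < r) (hx : Ann r x) {m : ℕ} (h : Grow G x m)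
    (hFG : ∀ X : L, Ann r X → g * F X = G X) : Grow F x m := by
  obtain ⟨C₀, δ, hδ, hb⟩ := h
  have hx0 : 0 < ‖x‖ := hr.trans hx.1
  refine ⟨‖g‖⁻¹ * C₀, min δ ‖x‖, lt_min hδ hx0, fun Y hne hY => ?_⟩
  have h1 : ‖Y‖ = ‖x‖ := by
    have hlt : ‖Y - x‖ < ‖x‖ := hY.trans_le (min_le_right _ _)
    have := IsUltrametricDist.norm_add_eq_max_of_norm_ne_norm hlt.ne
    rw [sub_add_cancel, max_eq_right hlt.le] at this
    exact this
  have hA : Ann r Y := by
    constructor
    · rw [h1]; exact hx.1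
    · rw [h1]; exact hx.2
  have h2 := hb Y hne (hY.trans_le (min_le_left _ _))
  rw [← hFG Y hA, norm_mul] at h2
  have hg' : 0 < ‖g‖ := norm_pos_iff.mpr hg
  rw [mul_assoc, inv_mul_eq_div, le_div_iff₀ hg', mul_comm]
  exact h2

theorem add (SLO : B.SloStmt) (PMU : B.PmuStmt) (EXL : B.ExlStmt) (NOD : B.NodStmt)
    (CHT : B.ChtStmt) (GAU : B.GauStmt) (IMU : B.ImuStmt) (IMI : B.ImiStmt) : B.AddStmt := by
  intro K L _ _ _ _ φ f θ s A B ψ κ hN hs hM hSp hI hκ hnorm
  classical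
  obtain ⟨⟨hη0, hη1, hctr⟩, -, -, ⟨hfI, hfM, hfd⟩, -, -⟩ := NOD L (f.map φ) θ hN
  obtain ⟨ch1, ch2, ch3⟩ := CHT L (f.map φ) θ s hN hs
  have hηp : 0 < ‖eta θ‖ := norm_pos_iff.mpr hη0
  have hφκ : φ κ ≠ 0 := (map_ne_zero φ).mpr hκ
  -- the equation over `L`
  have hAm : ∀ i, ((A i).map φ).Monic := fun i => (hM i).monic.map φ
  have hPM : ((A 0).map φ * (A 1).map φ * (A 2).map φ).Monic :=
    ((hAm 0).mul (hAm 1)).mul (hAm 2)
  have hPS : ((A 0).map φ * (A 1).map φ * (A 2).map φ).Splits :=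
    ((hSp 0).mul (hSp 1)).mul (hSp 2)
  have heq : (ψ.re.map φ) ^ 2 - (f.map φ) * (ψ.im.map φ) ^ 2
      = C (φ κ) * ((A 0).map φ * (A 1).map φ * (A 2).map φ) := by
    have := congrArg (Polynomial.map φ) hnorm
    simpa only [Polynomial.map_sub, Polynomial.map_pow, Polynomial.map_mul, Polynomial.map_C]
      using this
  have hodd : Odd (f.map φ).natDegree := by
    rw [hfd]
    decide
  obtain ⟨γ, hγ0, hγ, hγα, hγβ⟩ := GAU L (f.map φ) (ψ.re.map φ) (ψ.im.map φ) _ (φ κ) hfM hodd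
    hfI hPM hPS hφκ heq
  have hγp : 0 < ‖γ‖ := norm_pos_iff.mpr hγ0
  have hint : ∀ p : L[X], (∀ i, ‖p.coeff i‖ ≤ ‖γ‖) → PInt (C γ⁻¹ * p) := by
    intro p hp i
    rw [coeff_C_mul, norm_mul, norm_inv, inv_mul_eq_div, div_le_one hγp]
    exact hp i
  have hroot : ∀ i, ∀ a ∈ ((A i).map φ).roots,
      ((B i).map φ).eval a ^ 2 = (f.map φ).eval a := by
    intro i a ha
    have hd : (A i).map φ ∣ ((B i).map φ) ^ 2 - f.map φ := by
      have := Polynomial.map_dvd φ (hM i).dvd
      simpa only [Polynomial.map_sub, Polynomial.map_pow] using this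
    have h0 : ((A i).map φ).eval a = 0 := (mem_roots'.mp ha).2
    have := eval_eq_zero_of_dvd_of_eval_eq_zero hd h0
    rw [eval_sub, eval_pow] at this
    exact sub_eq_zero.mp this
  -- the Laurent series
  obtain ⟨c, hc, hv⟩ := laurent PMU EXL θ s hN.two hη0 hη1 hctr hs.1 (fun X hX => (ch1 X hX).1)
    _ _ (hint _ hγα) (hint _ hγβ)
  have hv' : ∀ X : L, Ann ‖eta θ‖ X → γ * val c X = evq φ ψ (xx θ X) (yy θ s X) := by
    intro X hX
    rw [hv X hX, evq, eval_mul, eval_mul, eval_C, eval_map, eval_map]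
    field_simp
  -- the zeros
  set Z : Multiset L := ∑ i : Fin 3, nz θ s ((A i).map φ) ((B i).map φ) with hZ
  have hZA : ∀ x ∈ Z, Ann ‖eta θ‖ x := by
    intro x hx
    rw [hZ, Multiset.mem_sum] at hx
    obtain ⟨i, -, hx⟩ := hx
    rw [nz, Multiset.mem_map] at hx
    obtain ⟨a, ha, rfl⟩ := hx
    rw [Multiset.mem_filter] at ha
    exact (ch2 a _ (hroot i a ha.1) ha.2).1
  have hcount : ∀ x : L, Ann ‖eta θ‖ x → ∀ i,
      IGr φ θ s (MI f (A i) (B i)) x ((nz θ s ((A i).map φ) ((B i).map φ)).count x) := by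
    intro x hx i
    have hcn := count_nz (f.map φ) θ s ((A i).map φ) ((B i).map φ)
      (fun X hX => ⟨(ch1 X hX).2.2.2.1, (ch1 X hX).2.2.2.2.2.2.2.2.2⟩)
      (fun a y h1 h2 => ⟨(ch2 a y h1 h2).2.1, (ch2 a y h1 h2).2.2.1⟩) (hroot i) x hx
    rw [hcn]
    split_ifs with h
    · exact IMI K L φ f (A i) (B i) θ s x hN hs hx (hM i) h
    · exact (IMU K L φ f θ s x hN hs hx).2 _
  have hgrow : ∀ x ∈ Z, Grow (val c) x (Z.count x) := by
    intro x hx
    have hxA := hZA x hx
    have hmul := (IMU K L φ f θ s x hN hs hxA).1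
    have h012 := hmul _ _ _ _ (hmul _ _ _ _ (hcount x hxA 0) (hcount x hxA 1)) (hcount x hxA 2)
    rw [hI] at h012
    have hψ := h012 ψ (Ideal.mem_span_singleton_self ψ)
    have hcz : Z.count x = (nz θ s ((A 0).map φ) ((B 0).map φ)).count x
        + (nz θ s ((A 1).map φ) ((B 1).map φ)).count x
        + (nz θ s ((A 2).map φ) ((B 2).map φ)).count x := by
      rw [hZ, Fin.sum_univ_three, Multiset.count_add, Multiset.count_add]
    rw [hcz]
    exact grow_congr hγ0 hηp hxA hψ hv'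
  -- the norm relation
  have hprod : ∀ X : L, Ann ‖eta θ‖ X → ‖val c X‖ * ‖val c (eta θ / X)‖ =
      (Z.map fun x => ‖(X - x) * (1 - eta θ / (X * x))‖).prod := by
    intro X hX
    obtain ⟨-, hy2, -, -, hX', hxx, hyy, -, -, -⟩ := ch1 X hX
    have e1 := hv' X hX
    have e2 := hv' (eta θ / X) hX'
    rw [hxx, hyy] at e2
    rw [evq, ← eval_map, ← eval_map] at e1 e2
    have e3 : (γ * val c X) * (γ * val c (eta θ / X))
        = φ κ * (((A 0).map φ).eval (xx θ X) * ((A 1).map φ).eval (xx θ X)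
          * ((A 2).map φ).eval (xx θ X)) := by
      have := congrArg (Polynomial.eval (xx θ X)) heq
      rw [eval_sub, eval_mul, eval_pow, eval_pow, eval_mul, eval_C, eval_mul, eval_mul] at this
      rw [e1, e2, ← this, ← hy2]
      ring
    have e4 : ∀ i, ‖((A i).map φ).eval (xx θ X)‖
        = (((A i).map φ).roots.map fun a => ‖xx θ X - a‖).prod := by
      intro i
      rw [(hSp i).eval_eq_prod_roots_of_monic (hAm i)]
      have := map_multiset_prod (normHom : L →*₀ ℝ)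
        (((A i).map φ).roots.map fun a => xx θ X - a)
      rw [Multiset.map_map] at this
      exact this
    have e5 : ∀ i, (((A i).map φ).roots.map fun a => ‖xx θ X - a‖).prod =
        (((A i).map φ).roots.map fun a => max 1 ‖a‖).prod *
          ((nz θ s ((A i).map φ) ((B i).map φ)).map
            fun x => ‖(X - x) * (1 - eta θ / (X * x))‖).prod := fun i =>
      prod_nz (f.map φ) θ s _ _ hN.two hctr
        (fun X hX => (ch1 X hX).2.2.2.2.2.2.2.2.2)
        (fun a y h1 h2 => ⟨(ch2 a y h1 h2).1, (ch2 a y h1 h2).2.1⟩) ch3 (hroot i) X hX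
    have e6 : (((A 0).map φ * (A 1).map φ * (A 2).map φ).roots.map fun a => max 1 ‖a‖).prod
        = (((A 0).map φ).roots.map fun a => max 1 ‖a‖).prod
          * (((A 1).map φ).roots.map fun a => max 1 ‖a‖).prod
          * (((A 2).map φ).roots.map fun a => max 1 ‖a‖).prod := by
      rw [roots_mul hPM.ne_zero, roots_mul ((hAm 0).mul (hAm 1)).ne_zero, Multiset.map_add,
        Multiset.map_add, Multiset.prod_add, Multiset.prod_add]
    rw [e6] at hγ
    have e7 := congrArg (fun t : L => ‖t‖) e3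
    simp only [norm_mul] at e7
    rw [e4 0, e4 1, e4 2, e5 0, e5 1, e5 2] at e7
    have e8 : (Z.map fun x => ‖(X - x) * (1 - eta θ / (X * x))‖).prod
        = ((nz θ s ((A 0).map φ) ((B 0).map φ)).map
            fun x => ‖(X - x) * (1 - eta θ / (X * x))‖).prod
          * ((nz θ s ((A 1).map φ) ((B 1).map φ)).map
            fun x => ‖(X - x) * (1 - eta θ / (X * x))‖).prod
          * ((nz θ s ((A 2).map φ) ((B 2).map φ)).map
            fun x => ‖(X - x) * (1 - eta θ / (X * x))‖).prod := by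
      rw [hZ, Fin.sum_univ_three, Multiset.map_add, Multiset.map_add, Multiset.prod_add,
        Multiset.prod_add]
    rw [e8]
    have hγ2 : ‖γ‖ ^ 2 ≠ 0 := by positivity
    apply mul_left_cancel₀ hγ2
    calc ‖γ‖ ^ 2 * (‖val c X‖ * ‖val c (eta θ / X)‖)
        = ‖γ‖ * ‖val c X‖ * (‖γ‖ * ‖val c (eta θ / X)‖) := by ring
      _ = _ := e7
      _ = _ := by
        rw [hγ]
        ring
  obtain ⟨k, hk⟩ := SLO L (eta θ) c Z hη0 hη1 hc hZA hgrow hprod
  refine ⟨k, ?_⟩
  rw [← hk, hZ, Fin.sum_univ_three, Fin.sum_univ_three, Multiset.map_add, Multiset.map_add,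
    Multiset.sum_add, Multiset.sum_add]
  rfl

end Pool.Agent.SZT.H47
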