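import Pool.Agent.SZT.StmtsB

/-! # SZT, block B, row LIP: a bounded Laurent series is Lipschitz on a circle. -/

noncomputable section

open Polynomial H58Q

namespace Pool.Agent.SZT.H47

open Pool.Agent.SZT.B

section

variable {L : Type} [NormedField L] [IsUltrametricDist L]

theorem zpow_sub_le (X X₀ : L) (h0 : X₀ ≠ 0) (hn : ‖X‖ = ‖X₀‖) (k : ℤ) :
    ‖X ^ k - X₀ ^ k‖ ≤ ‖X - X₀‖ * ‖X₀‖ ^ (k - 1) := by
  have hpos : 0 < ‖X₀‖ := norm_pos_iff.mpr h0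
  have hX0 : X ≠ 0 := by
    rw [← norm_pos_iff, hn]
    exact hpos
  induction k using Int.induction_on with
  | zero =>
    simp only [zpow_zero, sub_self, norm_zero]
    positivity
  | succ n ih =>
    have e : X ^ ((n : ℤ) + 1) - X₀ ^ ((n : ℤ) + 1)
        = X * (X ^ (n : ℤ) - X₀ ^ (n : ℤ)) + (X - X₀) * X₀ ^ (n : ℤ) := by
      rw [zpow_add_one₀ hX0, zpow_add_one₀ h0]
      ring
    rw [e]
    refine (IsUltrametricDist.norm_add_le_max _ _).trans (max_le ?_ ?_)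
    · rw [norm_mul, hn]
      calc ‖X₀‖ * ‖X ^ (n : ℤ) - X₀ ^ (n : ℤ)‖
          ≤ ‖X₀‖ * (‖X - X₀‖ * ‖X₀‖ ^ ((n : ℤ) - 1)) := mul_le_mul_of_nonneg_left ih hpos.le
        _ = ‖X - X₀‖ * ‖X₀‖ ^ ((n : ℤ) + 1 - 1) := by
            rw [show (n : ℤ) + 1 - 1 = ((n : ℤ) - 1) + 1 by ring, zpow_add_one₀ hpos.ne']
            ring
    · rw [norm_mul, norm_zpow, show (n : ℤ) + 1 - 1 = (n : ℤ) by ring]
  | pred n ih =>
    have e : X ^ (-(n : ℤ) - 1) - X₀ ^ (-(n : ℤ) - 1)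
        = X⁻¹ * (X ^ (-(n : ℤ)) - X₀ ^ (-(n : ℤ)))
          + (X₀ - X) * (X⁻¹ * X₀⁻¹) * X₀ ^ (-(n : ℤ)) := by
      rw [zpow_sub_one₀ hX0, zpow_sub_one₀ h0]
      field_simp
      ring
    rw [e]
    refine (IsUltrametricDist.norm_add_le_max _ _).trans (max_le ?_ ?_)
    · rw [norm_mul, norm_inv, hn]
      calc ‖X₀‖⁻¹ * ‖X ^ (-(n : ℤ)) - X₀ ^ (-(n : ℤ))‖
          ≤ ‖X₀‖⁻¹ * (‖X - X₀‖ * ‖X₀‖ ^ (-(n : ℤ) - 1)) :=
            mul_le_mul_of_nonneg_left ih (inv_nonneg.mpr hpos.le)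
        _ = ‖X - X₀‖ * ‖X₀‖ ^ (-(n : ℤ) - 1 - 1) := by
            rw [zpow_sub_one₀ hpos.ne' (-(n : ℤ) - 1)]
            ring
    · rw [norm_mul, norm_mul, norm_mul, norm_inv, norm_inv, norm_zpow, hn, norm_sub_rev X₀ X]
      rw [zpow_sub_one₀ hpos.ne' (-(n : ℤ) - 1), zpow_sub_one₀ hpos.ne' (-(n : ℤ))]
      apply le_of_eq
      ring

end

theorem lip (h : B.SumStmt) : B.LipStmt := by
  intro L _ _ _ r c X X₀ hr hr1 hc hX₀ hn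
  have hpos : 0 < ‖X₀‖ := hr.trans hX₀.1
  have h0 : X₀ ≠ 0 := norm_pos_iff.mp hpos
  have hX : Ann r X := by
    constructor
    · rw [hn]; exact hX₀.1
    · rw [hn]; exact hX₀.2
  obtain ⟨-, -, -, hb, hs, -⟩ := h L r 1 c X₀ hr hr1 one_pos hc hX₀
  obtain ⟨-, -, -, -, hs', -⟩ := h L r 1 c X hr hr1 one_pos hc hX
  have hd : val c X - val c X₀ = ∑' k : ℤ, (c k * X ^ k - c k * X₀ ^ k) :=
    (hs'.tsum_sub hs).symm
  rw [hd]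
  have hC : 0 ≤ ‖X - X₀‖ / ‖X₀‖ := by positivity
  refine IsUltrametricDist.norm_tsum_le_of_forall_le_of_nonneg hC fun k => ?_
  have hk := hb k
  rw [Real.one_rpow, norm_mul, norm_zpow] at hk
  rw [← mul_sub, norm_mul]
  calc ‖c k‖ * ‖X ^ k - X₀ ^ k‖ ≤ ‖c k‖ * (‖X - X₀‖ * ‖X₀‖ ^ (k - 1)) :=
        mul_le_mul_of_nonneg_left (zpow_sub_le X X₀ h0 hn k) (norm_nonneg _)
    _ = (‖c k‖ * ‖X₀‖ ^ k) * (‖X - X₀‖ / ‖X₀‖) := by
        rw [zpow_sub_one₀ hpos.ne']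
        field_simp
    _ ≤ 1 * (‖X - X₀‖ / ‖X₀‖) := mul_le_mul_of_nonneg_right hk hC
    _ = ‖X - X₀‖ / ‖X₀‖ := one_mul _

end Pool.Agent.SZT.H47
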